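import Pool.Agent.Helper55.AR.Main
import Pool.Agent.Helper23.Slim.CofinalityPatternsMain

/-!
Patterns of cofinalities and mutual stationarity from a violation of `|pcf(a_α)| ≤ |a_α|`.  Let `α`
be a limit ordinal with `|a_α| < |pcf(a_α)|` (for example `ℵ_α ^ |α| > 2 ^ |α| + ℵ_{|α|⁺}`), let
`n < ω` and `θ = |α|^{+n}`.

(1) For every family `F` of at most `θ` finitary operations on the ordinals there is an infinite
`A ⊆ a_α` such that for every function `f` from `A` to the regular cardinals `≤ θ` there is an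
`F`-closed set `M ⊇ θ` of `θ` ordinals with `cf (sup (M ∩ x)) = f x` for all `x ∈ A`.

(2) If `|a_α|^{ℵ₀} ≤ θ`, there is an infinite `A ⊆ a_α` such that all sequences of sets `S_x ⊆ x`
(`x ∈ A`), each stationary in all `δ` of cofinality `θ⁺` from some club of `x`, are mutually
stationary: for every `F` some `M` as in (1) has `sup (M ∩ x) ∈ S_x` for all `x ∈ A`.
-/

set_option autoImplicit false

open Cardinal

universe u v

namespace Pool.Agent.Results.MP_d25c2b_lc.CofinalityPatterns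

/-- The product `∏ i, c i` of ordinals; its members are the functions `f` with `f i < c i` for
all `i`.  It is preordered by `f ≤ g ↔ {i | f i ≤ g i} ∈ D` (so `f < g ↔ {i | f i < g i} ∈ D`);
the quotient by `≤ ∧ ≥` is the ultraproduct `∏ c / D`. -/
def UProd {ι : Type v} (_D : Ultrafilter ι) (c : ι → Ordinal.{u}) : Type (max v (u + 1)) :=
  ∀ i, Set.Iio (c i)

instance {ι : Type v} (D : Ultrafilter ι) (c : ι → Ordinal.{u}) : Preorder (UProd D c) where
  le f g := ∀ᶠ i in D, f i ≤ g i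
  le_refl f := Filter.Eventually.of_forall fun _ => le_rfl
  le_trans f g h h1 h2 := by
    filter_upwards [h1, h2] with i a b using le_trans a b

/-- `pcf a` is the set of all cofinalities of ultraproducts `∏ a / D`, `D` an ultrafilter on `a`.
(Cardinals of sets of cardinals live one universe up, hence the `lift`.) -/
def pcf (a : Set Cardinal.{u}) : Set Cardinal.{u} :=
  {κ | ∃ D : Ultrafilter a,
    Order.cof (UProd D (fun x : a => x.1.ord)) = Cardinal.lift.{u + 1} κ}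

/-- `a_α = {κ regular : |α|⁺ ≤ κ < ℵ_α}`. -/
def aSet (α : Ordinal.{u}) : Set Cardinal.{u} :=
  {κ | κ.IsRegular ∧ Order.succ α.card ≤ κ ∧ κ < ℵ_ α}

/-- `C` is unbounded in `o`. -/
def UnbIn (C : Set Ordinal.{u}) (o : Ordinal.{u}) : Prop := ∀ x < o, ∃ y ∈ C, x < y ∧ y < o

/-- `C` is a club of `o`: unbounded, and it contains every `δ < o`, `δ > 0`, in which it is
unbounded. -/
def ClubIn (C : Set Ordinal.{u}) (o : Ordinal.{u}) : Prop :=
  UnbIn C o ∧ ∀ δ < o, 0 < δ → UnbIn C δ → δ ∈ C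

/-- `S` is stationary in `o`. -/
def StatIn (S : Set Ordinal.{u}) (o : Ordinal.{u}) : Prop :=
  ∀ C, ClubIn C o → ∃ x ∈ S, x ∈ C ∧ x < o

/-- Some `F`-closed set `M ⊇ θ` of at most `θ` ordinals has `sup (M ∩ x) ∈ S_x` for all `x ∈ A`. -/
def Met (θ : Cardinal.{u}) {I : Type u} (F : I → List Ordinal.{u} → Ordinal.{u})
    (A : Set Cardinal.{u}) (S : Cardinal.{u} → Set Ordinal.{u}) : Prop :=
  ∃ M : Set Ordinal.{u}, (∀ i l, (∀ z ∈ l, z ∈ M) → F i l ∈ M) ∧
    Set.Iio θ.ord ⊆ M ∧ #M ≤ Cardinal.lift.{u + 1} θ ∧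
    ∀ x ∈ A, ∃ s ∈ S x, s < x.ord ∧ IsLUB (M ∩ Set.Iio x.ord) s

theorem result {α : Ordinal.{u}} (hα : Order.IsSuccLimit α)
    (hv : #(aSet α) < #(pcf (aSet α)) ∨
      2 ^ α.card + ℵ_ (Order.succ α.card).ord < ℵ_ α ^ α.card)
    (n : ℕ) (θ : Cardinal.{u}) (hθ : θ = Order.succ^[n] α.card) :
    -- (1)
    (∀ (I : Type u) (F : I → List Ordinal.{u} → Ordinal.{u}), #I ≤ θ →
      ∃ A ⊆ aSet α, A.Infinite ∧ ∀ f : Cardinal.{u} → Cardinal.{u},
        (∀ x ∈ A, (f x).IsRegular ∧ f x ≤ θ) → Met θ F A fun x => {s | s.cof = f x}) ∧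
    -- (2)
    (#(aSet α) ^ ℵ₀ ≤ Cardinal.lift.{u + 1} θ →
      ∃ A ⊆ aSet α, A.Infinite ∧ ∀ S : Cardinal.{u} → Set Ordinal.{u},
        (∀ x ∈ A, ∃ C, ClubIn C x.ord ∧ ∀ δ ∈ C, δ < x.ord → δ.cof = Order.succ θ →
          StatIn (S x) δ) →
        ∀ (I : Type u) (F : I → List Ordinal.{u} → Ordinal.{u}), #I ≤ θ → Met θ F A S) := by
  obtain ⟨h1, h2⟩ := Helper55.Slim.CofinalityPatterns.result hα
    (Helper55.AR.violation hα hv) n θ hθ
  refine ⟨h1, fun hpow => ?_⟩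
  obtain ⟨A, hA, hAinf, h3⟩ := h2 hpow
  refine ⟨A, hA, hAinf, fun S hS => h3 S fun x hx => ?_⟩
  obtain ⟨C, hC, hC'⟩ := hS x hx
  exact ⟨C, ⟨hC.1, hC.2⟩, fun δ hδ h4 h5 D hD => hC' δ hδ h4 h5 D ⟨hD.unb, hD.cl⟩⟩

end Pool.Agent.Results.MP_d25c2b_lc.CofinalityPatterns
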