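import Pool.Agent.Helper55.AR.Main
import Pool.Agent.Helper23.Slim.KurepaFamiliesMain

/-!
The inequality `|pcf(a_α)| ≤ |a_α|` passes to every infinite cardinal without a Kurepa family: if
`κ` is an infinite cardinal, there is no Kurepa family on `κ` and `|pcf(a_x)| ≤ |a_x|` for all limit
ordinals `x < κ`, then `|pcf(a_κ)| ≤ |a_κ|`, and so `ℵ_κ ^ κ ≤ 2 ^ κ + ℵ_{κ⁺}`.
-/

set_option autoImplicit false

open Cardinal

universe u v

namespace Pool.Agent.Results.MP_d25c2b_lc.KurepaFamilies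

/-- The product `∏ i, c i` of ordinals; its members are the functions `f` with `f i < c i` for
all `i`.  It is preordered by `f ≤ g ↔ {i | f i ≤ g i} ∈ D` (so `f < g ↔ {i | f i < g i} ∈ D`);
the quotient by `≤ ∧ ≥` is the ultraproduct `∏ c / D`. -/
def UProd {ι : Type v} (_D : Ultrafilter ι) (c : ι → Ordinal.{u}) : Type (max v (u + 1)) :=
  ∀ i, Set.Iio (c i)

instance {ι : Type v} (D : Ultrafilter ι) (c : ι → Ordinal.{u}) : Preorder (UProd D c) where
  le f g := ∀ᶠ i in D, f i ≤ g i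
  le_refl f := Filter.Eventually.of_forall fun _ => le_rfl
  le_trans f g h h1 h2 := by
    filter_upwards [h1, h2] with i a b using le_trans a b

/-- `pcf a` is the set of all cofinalities of ultraproducts `∏ a / D`, `D` an ultrafilter on `a`.
(Cardinals of sets of cardinals live one universe up, hence the `lift`.) -/
def pcf (a : Set Cardinal.{u}) : Set Cardinal.{u} :=
  {κ | ∃ D : Ultrafilter a,
    Order.cof (UProd D (fun x : a => x.1.ord)) = Cardinal.lift.{u + 1} κ}

/-- `a_α = {κ regular : |α|⁺ ≤ κ < ℵ_α}`. -/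
def aSet (α : Ordinal.{u}) : Set Cardinal.{u} :=
  {κ | κ.IsRegular ∧ Order.succ α.card ≤ κ ∧ κ < ℵ_ α}

/-- A Kurepa family on `κ`: a family of more than `κ` subsets of `κ` such that the family of the
intersections of its members with `x` has cardinality at most `|x|` for all infinite `x < κ`. -/
def KurepaFamily (κ : Cardinal.{u}) : Prop :=
  ∃ F : Set (Set Ordinal.{u}), (∀ X ∈ F, X ⊆ Set.Iio κ.ord) ∧ Cardinal.lift.{u + 1} κ < #F ∧
    ∀ x < κ.ord, ℵ₀ ≤ x.card →
      #((fun X => X ∩ Set.Iio x) '' F) ≤ Cardinal.lift.{u + 1} x.card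

theorem result {κ : Cardinal.{u}} (h0 : ℵ₀ ≤ κ) (hK : ¬ KurepaFamily κ)
    (hlt : ∀ x < κ.ord, Order.IsSuccLimit x → #(pcf (aSet x)) ≤ #(aSet x)) :
    #(pcf (aSet κ.ord)) ≤ #(aSet κ.ord) ∧
      ℵ_ κ.ord ^ κ ≤ 2 ^ κ + ℵ_ (Order.succ κ).ord := by
  have h := Helper55.Slim.KurepaFamilies.result h0 hK hlt
  refine ⟨h, ?_⟩
  have hle := Helper55.AR.mk_aSet_le κ.ord
  rw [Cardinal.card_ord] at hle
  have := Helper55.AR.bridge (Cardinal.isSuccLimit_ord h0) (lam := Order.succ κ)
    (h.trans_lt (hle.trans_lt (Cardinal.lift_lt.2 (Order.lt_succ κ))))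
    (by rw [Cardinal.card_ord]; exact Order.lt_succ κ)
  rwa [Cardinal.card_ord] at this

end Pool.Agent.Results.MP_d25c2b_lc.KurepaFamilies
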