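import Pool.Agent.Helper55.AR.Main

/-!
Reflection of stationary sets bounds `pcf(a_α)` and `ℵ_α ^ |α|`.  Let `α` be a limit ordinal,
`κ = |a_α|`, let `λ > κ` be regular and let `S ⊆ λ` be stationary.  Suppose that for any at most `κ`
stationary subsets of `S` there are finitely many ordinals of uncountable cofinality below `λ` (for
example, one) such that each of the stationary sets reflects at one of them.  Then
`|pcf(a_α)| < λ`, and `ℵ_α ^ |α| ≤ 2 ^ |α| + ℵ_λ` if `|α| < λ`.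
-/

set_option autoImplicit false

open Cardinal Ordinal

universe u v

namespace Pool.Agent.Results.MP_d25c2b_lc.StationaryReflection

/-- The product `∏ i, c i` of ordinals; its members are the functions `f` with `f i < c i` for
all `i`.  It is preordered by `f ≤ g ↔ {i | f i ≤ g i} ∈ D` (so `f < g ↔ {i | f i < g i} ∈ D`);
the quotient by `≤ ∧ ≥` is the ultraproduct `∏ c / D`. -/
def UProd {ι : Type v} (_D : Ultrafilter ι) (c : ι → Ordinal.{u}) : Type (max v (u + 1)) :=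
  ∀ i, Set.Iio (c i)

instance {ι : Type v} (D : Ultrafilter ι) (c : ι → Ordinal.{u}) : Preorder (UProd D c) where
  le f g := ∀ᶠ i in D, f i ≤ g i
  le_refl f := Filter.Eventually.of_forall fun _ => le_rfl
  le_trans f g h h1 h2 := by
    filter_upwards [h1, h2] with i a b using le_trans a b

/-- `pcf a` is the set of all cofinalities of ultraproducts `∏ a / D`, `D` an ultrafilter on `a`.
(Cardinals of sets of cardinals live one universe up, hence the `lift`.) -/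
def pcf (a : Set Cardinal.{u}) : Set Cardinal.{u} :=
  {κ | ∃ D : Ultrafilter a,
    Order.cof (UProd D (fun x : a => x.1.ord)) = Cardinal.lift.{u + 1} κ}

/-- `a_α = {κ regular : |α|⁺ ≤ κ < ℵ_α}`. -/
def aSet (α : Ordinal.{u}) : Set Cardinal.{u} :=
  {κ | κ.IsRegular ∧ Order.succ α.card ≤ κ ∧ κ < ℵ_ α}

/-- `C` is unbounded in `o`. -/
def UnbIn (C : Set Ordinal.{u}) (o : Ordinal.{u}) : Prop := ∀ x < o, ∃ y ∈ C, x < y ∧ y < o

/-- `C` is a club of `o`: unbounded in `o` and closed in `o`. -/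
def ClubIn (C : Set Ordinal.{u}) (o : Ordinal.{u}) : Prop :=
  UnbIn C o ∧ ∀ δ < o, 0 < δ → UnbIn C δ → δ ∈ C

/-- `S` is stationary in `o`: it meets every club of `o`. -/
def StatIn (S : Set Ordinal.{u}) (o : Ordinal.{u}) : Prop :=
  ∀ C, ClubIn C o → ∃ x ∈ S, x ∈ C ∧ x < o

theorem statIn_iff {S : Set Ordinal.{u}} {o : Ordinal.{u}} :
    StatIn S o ↔ Helper23.Pcf.StatIn S o :=
  ⟨fun h C hC => h C ⟨hC.unb, hC.cl⟩, fun h C hC => h C ⟨hC.1, hC.2⟩⟩

theorem result {α : Ordinal.{u}} (hα : Order.IsSuccLimit α) {lam : Cardinal.{u}}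
    (hlam : lam.IsRegular) (hκ : #(aSet α) < Cardinal.lift.{u + 1} lam) {S : Set Ordinal.{u}}
    (hS : StatIn S lam.ord)
    (hrefl : ∀ T : Set (Set Ordinal.{u}), #T ≤ #(aSet α) →
      (∀ Z ∈ T, Z ⊆ S ∧ StatIn Z lam.ord) →
      ∃ B : Set Ordinal.{u}, B.Finite ∧ (∀ β ∈ B, β < lam.ord ∧ ℵ₀ < β.cof) ∧
        ∀ Z ∈ T, ∃ β ∈ B, StatIn Z β) :
    #(pcf (aSet α)) < Cardinal.lift.{u + 1} lam ∧
      (α.card < lam → ℵ_ α ^ α.card ≤ 2 ^ α.card + ℵ_ lam.ord) := by
  refine Helper55.AR.reflection hα hlam hκ (statIn_iff.1 hS) fun T hT hT' => ?_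
  obtain ⟨B, h1, h2, h3⟩ := hrefl T hT fun Z hZ => ⟨(hT' Z hZ).1, statIn_iff.2 (hT' Z hZ).2⟩
  exact ⟨B, h1, h2, fun Z hZ => by
    obtain ⟨β, h4, h5⟩ := h3 Z hZ
    exact ⟨β, h4, statIn_iff.1 h5⟩⟩

end Pool.Agent.Results.MP_d25c2b_lc.StationaryReflection
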