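import Pool.Agent.Helper55.AR.Main

/-!
Upper bounds for `ℵ_α ^ |α|` and `|pcf(a_α)|`.  Let `α` be a limit ordinal and `κ = |a_α|`.

(1) `ℵ_ω ^ ℵ₀ ≤ 2 ^ ℵ₀ + ℵ_{ω₃}`, unless `𝔟(ω₁) ≤ ℵ₃ ≤ 𝔡(ω₁)`.  For every `α`, with
`λ = |α|⁺⁺⁺`: `ℵ_α ^ |α| ≤ 2 ^ |α| + ℵ_λ`, unless `𝔟(|α|⁺) ≤ λ ≤ 𝔡(|α|⁺)`.

(2) `|pcf(a_α)| ≤ κ⁺⁺`, or `|pcf(a_α)| = κ⁺⁺⁺` and `𝔟(κ⁺) ≤ κ⁺⁺⁺ ≤ 𝔡(κ⁺)`.

(3) If `μ > κ` is regular and the power set of `κ` has the `μ`-Freese–Nation property, then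
`|pcf(a_α)| ≤ μ`.  If the power set of `ω` has the weak Freese–Nation property, then
`|pcf(a_α)| ≤ ℵ₁` if `a_α` is countable, and `ℵ_α ^ ℵ₀ ≤ 2 ^ ℵ₀ + ℵ_{ω₂}` if `α` is countable.
-/

set_option autoImplicit false

open Cardinal Ordinal

universe u v

namespace Pool.Agent.Results.MP_d25c2b_lc.UpperBounds

/-- The product `∏ i, c i` of ordinals; its members are the functions `f` with `f i < c i` for
all `i`.  It is preordered by `f ≤ g ↔ {i | f i ≤ g i} ∈ D` (so `f < g ↔ {i | f i < g i} ∈ D`);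
the quotient by `≤ ∧ ≥` is the ultraproduct `∏ c / D`. -/
def UProd {ι : Type v} (_D : Ultrafilter ι) (c : ι → Ordinal.{u}) : Type (max v (u + 1)) :=
  ∀ i, Set.Iio (c i)

instance {ι : Type v} (D : Ultrafilter ι) (c : ι → Ordinal.{u}) : Preorder (UProd D c) where
  le f g := ∀ᶠ i in D, f i ≤ g i
  le_refl f := Filter.Eventually.of_forall fun _ => le_rfl
  le_trans f g h h1 h2 := by
    filter_upwards [h1, h2] with i a b using le_trans a b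

/-- `pcf a` is the set of all cofinalities of ultraproducts `∏ a / D`, `D` an ultrafilter on `a`.
(Cardinals of sets of cardinals live one universe up, hence the `lift`.) -/
def pcf (a : Set Cardinal.{u}) : Set Cardinal.{u} :=
  {κ | ∃ D : Ultrafilter a,
    Order.cof (UProd D (fun x : a => x.1.ord)) = Cardinal.lift.{u + 1} κ}

/-- `a_α = {κ regular : |α|⁺ ≤ κ < ℵ_α}`. -/
def aSet (α : Ordinal.{u}) : Set Cardinal.{u} :=
  {κ | κ.IsRegular ∧ Order.succ α.card ≤ κ ∧ κ < ℵ_ α}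

/-- `f ≤ g` from some point on. -/
def EvLe {X : Type u} [LE X] (f g : X → X) : Prop := ∃ i₀, ∀ i, i₀ ≤ i → f i ≤ g i

/-- The bounding number `𝔟(κ⁺)`. -/
noncomputable def bNum (κ : Cardinal.{u}) : Cardinal.{u} :=
  sInf {c | ∃ F : Set ((Order.succ κ).ord.ToType → (Order.succ κ).ord.ToType),
    #F = c ∧ ¬ ∃ g, ∀ f ∈ F, EvLe f g}

/-- The dominating number `𝔡(κ⁺)`. -/
noncomputable def dNum (κ : Cardinal.{u}) : Cardinal.{u} :=
  sInf {c | ∃ F : Set ((Order.succ κ).ord.ToType → (Order.succ κ).ord.ToType),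
    #F = c ∧ ∀ f, ∃ g ∈ F, EvLe f g}

/-- The `μ`-Freese–Nation property of the power set of `X`: there is a function `f` that assigns to
every `A ⊆ X` a family of fewer than `μ` subsets of `X`, such that whenever `A ⊆ B` some
`C ∈ f(A) ∩ f(B)` has `A ⊆ C ⊆ B`. -/
def FN (X : Type u) (μ : Cardinal.{u}) : Prop :=
  ∃ f : Set X → Set (Set X), (∀ A, #(f A) < μ) ∧
    ∀ A B : Set X, A ⊆ B → ∃ C, C ∈ f A ∧ C ∈ f B ∧ A ⊆ C ∧ C ⊆ B

/-- The weak Freese–Nation property of the power set of `ω`. -/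
def WFN : Prop :=
  ∃ f : Set ℕ → Set (Set ℕ), (∀ A, (f A).Countable) ∧
    ∀ A B : Set ℕ, A ⊆ B → ∃ C, C ∈ f A ∧ C ∈ f B ∧ A ⊆ C ∧ C ⊆ B

theorem result :
    -- (1)
    (∀ α : Ordinal.{u}, Order.IsSuccLimit α →
      ℵ_ α ^ α.card ≤ 2 ^ α.card + ℵ_ (Order.succ (Order.succ (Order.succ α.card))).ord ∨
      (bNum α.card ≤ Order.succ (Order.succ (Order.succ α.card)) ∧
        Order.succ (Order.succ (Order.succ α.card)) ≤ dNum α.card)) ∧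
    -- (2)
    (∀ (α : Ordinal.{u}) (κ : Cardinal.{u}), Order.IsSuccLimit α →
      #(aSet α) = Cardinal.lift.{u + 1} κ →
      #(pcf (aSet α)) ≤ Cardinal.lift.{u + 1} (Order.succ (Order.succ κ)) ∨
      (#(pcf (aSet α)) = Cardinal.lift.{u + 1} (Order.succ (Order.succ (Order.succ κ))) ∧
        bNum κ ≤ Order.succ (Order.succ (Order.succ κ)) ∧
        Order.succ (Order.succ (Order.succ κ)) ≤ dNum κ)) ∧
    -- (3)
    (∀ (α : Ordinal.{u}) (X : Type u) (μ : Cardinal.{u}), Order.IsSuccLimit α → μ.IsRegular →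
      #(aSet α) ≤ Cardinal.lift.{u + 1} #X → #X < μ → FN X μ →
      #(pcf (aSet α)) ≤ Cardinal.lift.{u + 1} μ) ∧
    (WFN → ∀ α : Ordinal.{u}, Order.IsSuccLimit α →
      (#(aSet α) ≤ ℵ₀ → #(pcf (aSet α)) ≤ ℵ₁) ∧
      (α.card = ℵ₀ → ℵ_ α ^ ℵ₀ ≤ 2 ^ ℵ₀ + ℵ_ (ω_ 2))) :=
  ⟨Helper55.AR.arith, Helper55.AR.upper, Helper55.AR.fn_bound, fun h α hα =>
    ⟨fun hc => (Helper55.AR.wfn_bound h α hα hc).1, fun hc => (Helper55.AR.wfn_bound h α hα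
      ((Helper55.AR.mk_aSet_le α).trans (by rw [hc, Cardinal.lift_aleph0]))).2 hc⟩⟩

end Pool.Agent.Results.MP_d25c2b_lc.UpperBounds
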